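import Mathlib
import Pool.Agent.Lib.MP_04172d_lc.Transfinite
import Pool.Agent.Lib.MP_04172d_lc.Geometry

set_option autoImplicit false

open Cardinal Set

namespace Pool.Agent.Results.MP_04172d_lc.HamelEveryDirection

/-- A Mazurkiewicz (two-point) set: every straight line of the plane, given by a point `p` and a
direction vector `v ≠ 0`, meets `M` in exactly two points. -/
def IsMazurkiewicz (M : Set (ℝ × ℝ)) : Prop :=
  ∀ p v : ℝ × ℝ, v ≠ 0 → (M ∩ {q | ∃ t : ℝ, q = p + t • v}).ncard = 2

/-- The rotation of the plane about the origin by the angle `θ`. -/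
noncomputable def rot (θ : ℝ) (p : ℝ × ℝ) : ℝ × ℝ :=
  (Real.cos θ * p.1 - Real.sin θ * p.2, Real.sin θ * p.1 + Real.cos θ * p.2)

/-- The graph of a real function. -/
def graph (h : ℝ → ℝ) : Set (ℝ × ℝ) := {p | p.2 = h p.1}

/-- A Hamel function: its graph is a basis of the plane as a vector space over the rationals. -/
def IsHamelFunction (h : ℝ → ℝ) : Prop :=
  LinearIndependent ℚ (fun p : graph h => (p : ℝ × ℝ)) ∧ Submodule.span ℚ (graph h) = ⊤

open Pool.Agent.Lib.MP_04172d_lc

theorem mk_task : #((ℝ × ℝ) ⊕ (ℝ × (ℝ × ℝ))) = 𝔠 := by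
  simp [mk_real]

/-- The transfinite construction. -/
theorem construct : ∃ s : St, Inv s ∧
    (∀ θ c : ℝ, ∃ x ∈ s.1, ∃ y ∈ s.1, x ≠ y ∧ L θ x = c ∧ L θ y = c) ∧
    ∀ θ : ℝ, ∀ v : ℝ × ℝ, v ∈ Submodule.span ℚ (s.2 θ) := by
  obtain ⟨s, hs, ht⟩ := transfinite (V := ℝ × ℝ) (T := (ℝ × ℝ) ⊕ (ℝ × (ℝ × ℝ))) (S := St)
    (fun s => s.1) (fun ι f => iSup_fst f) Inv (fun ι _ f hf h => inv_chain ι f hf h)
    (fun t s => match t with
      | Sum.inl a => ∃ x ∈ s.1, ∃ y ∈ s.1, x ≠ y ∧ L a.1 x = a.2 ∧ L a.1 y = a.2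
      | Sum.inr b => b.2 ∈ Submodule.span ℚ (s.2 b.1))
    (by
      rintro (a | b) s s' hle h
      · obtain ⟨x, hx, y, hy, h⟩ := h
        exact ⟨x, hle.1 hx, y, hle.1 hy, h⟩
      · exact Submodule.span_mono (hle.2 b.1) h)
    (by
      intro s hs hcard t
      rw [mk_task] at hcard
      rcases t with a | b
      · exact line_task hs hcard a.1 a.2
      · exact span_task hs hcard b.1 b.2)
    (by rw [mk_task]; exact aleph0_lt_continuum)
  exact ⟨s, hs, fun θ c => ht (Sum.inl (θ, c)), fun θ v => ht (Sum.inr (θ, v))⟩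

/-- The rotation as a rational linear equivalence. -/
noncomputable def rotE (θ : ℝ) : (ℝ × ℝ) ≃ₗ[ℚ] (ℝ × ℝ) where
  toFun := rot θ
  invFun := rot (-θ)
  map_add' p q := by
    simp only [rot, Prod.fst_add, Prod.snd_add]
    refine Prod.ext ?_ ?_
    · simp only [Prod.fst_add]; ring
    · simp only [Prod.snd_add]; ring
  map_smul' r p := by
    simp only [rot, Prod.smul_fst, Prod.smul_snd, RingHom.id_apply, Rat.smul_def]
    refine Prod.ext ?_ ?_
    · simp only [Prod.smul_fst, Rat.smul_def]; ring
    · simp only [Prod.smul_snd, Rat.smul_def]; ring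
  left_inv p := by
    have h := Real.sin_sq_add_cos_sq θ
    simp only [rot, Real.cos_neg, Real.sin_neg]
    refine Prod.ext ?_ ?_
    · simp only; linear_combination p.1 * h
    · simp only; linear_combination p.2 * h
  right_inv p := by
    have h := Real.sin_sq_add_cos_sq θ
    simp only [rot, Real.cos_neg, Real.sin_neg]
    refine Prod.ext ?_ ?_
    · simp only; linear_combination p.1 * h
    · simp only; linear_combination p.2 * h

/-- There is a Mazurkiewicz set which contains the graph of a Hamel function in every direction. -/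
theorem result : ∃ M : Set (ℝ × ℝ), IsMazurkiewicz M ∧
    ∀ θ : ℝ, ∃ h : ℝ → ℝ, IsHamelFunction h ∧ graph h ⊆ rot θ '' M := by
  obtain ⟨s, hs, hline, hspan⟩ := construct
  refine ⟨s.1, ?_, ?_⟩
  · intro p v hv
    obtain ⟨φ, hφ⟩ := exists_angle v
    have hset : {q : ℝ × ℝ | ∃ t : ℝ, q = p + t • v} = {q | L φ q = L φ p} := by
      ext q
      simp only [mem_ofPred_eq]
      constructor
      · rintro ⟨t, rfl⟩
        simp only [L, Prod.fst_add, Prod.snd_add, Prod.smul_fst, Prod.smul_snd, smul_eq_mul] at hφ ⊢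
        linear_combination t * hφ
      · intro h
        have h1 : L φ (q - p) = 0 := by rw [L_sub, h, sub_self]
        have h2 := dt_eq_zero_of_L hφ h1
        simp only [dt, Prod.fst_sub, Prod.snd_sub] at h2
        have hv' : v.1 ≠ 0 ∨ v.2 ≠ 0 := by
          by_contra hc
          push Not at hc
          exact hv (Prod.ext hc.1 hc.2)
        rcases hv' with h3 | h3
        · refine ⟨(q.1 - p.1) / v.1, Prod.ext ?_ ?_⟩
          · simp only [Prod.fst_add, Prod.smul_fst, smul_eq_mul]
            rw [div_mul_cancel₀ _ h3]; ring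
          · simp only [Prod.snd_add, Prod.smul_snd, smul_eq_mul]
            field_simp
            linear_combination h2
        · refine ⟨(q.2 - p.2) / v.2, Prod.ext ?_ ?_⟩
          · simp only [Prod.fst_add, Prod.smul_fst, smul_eq_mul]
            field_simp
            linear_combination -h2
          · simp only [Prod.snd_add, Prod.smul_snd, smul_eq_mul]
            rw [div_mul_cancel₀ _ h3]; ring
    rw [hset]
    obtain ⟨x, hx, y, hy, hxy, h1, h2⟩ := hline φ (L φ p)
    have : s.1 ∩ {q | L φ q = L φ p} = {x, y} := by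
      ext z
      constructor
      · rintro ⟨hz, hz'⟩
        by_contra hc
        simp only [mem_insert_iff, mem_singleton_iff, not_or] at hc
        exact hs.col φ x hx y hy z hz hxy (Ne.symm hc.2) (Ne.symm hc.1) (h1.trans h2.symm)
          (h1.trans (Eq.symm hz'))
      · rintro (rfl | rfl)
        · exact ⟨hx, h1⟩
        · exact ⟨hy, h2⟩
    rw [this, ncard_pair hxy]
  · intro θ
    -- exactly one selected point on each line
    have hex : ∀ c : ℝ, ∃ p ∈ s.2 θ, L θ p = c ∧ ∀ q ∈ s.2 θ, L θ q = c → q = p := by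
      intro c
      obtain ⟨x, hx, y, hy, hxy, h1, h2⟩ := hline θ c
      have hall : ∀ z ∈ s.1, L θ z = c → z = x ∨ z = y := by
        intro z hz h
        by_contra hc
        push Not at hc
        exact hs.col θ x hx y hy z hz hxy (Ne.symm hc.2) (Ne.symm hc.1) (h1.trans h2.symm)
          (h1.trans h.symm)
      have htr := hs.tr θ x hx y hy hxy (h1.trans h2.symm)
      by_cases hxB : x ∈ s.2 θ
      · refine ⟨x, hxB, h1, fun q hq h => ?_⟩
        rcases hall q (hs.sub θ hq) h with h | h
        · exact h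
        · exact absurd (h ▸ hq) (htr.1 hxB)
      · have hyB : y ∈ s.2 θ := by
          by_contra hc
          exact hxB (htr.2 hc)
        refine ⟨y, hyB, h2, fun q hq h => ?_⟩
        rcases hall q (hs.sub θ hq) h with h | h
        · exact absurd (h ▸ hq) hxB
        · exact h
    choose P hP1 hP2 hP3 using hex
    have hgr : graph (fun c => (rot θ (P c)).2) = rotE θ '' s.2 θ := by
      ext z
      constructor
      · intro hz
        refine ⟨P z.1, hP1 _, Prod.ext ?_ ?_⟩
        · exact hP2 z.1
        · exact hz.symm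
      · rintro ⟨p, hp, rfl⟩
        have h1 : p = P (L θ p) := hP3 _ p hp rfl
        show (rot θ p).2 = (rot θ (P (rot θ p).1)).2
        have h2 : (rot θ p).1 = L θ p := rfl
        rw [h2, ← h1]
    refine ⟨fun c => (rot θ (P c)).2, ⟨?_, ?_⟩, ?_⟩
    · have h1 : LinearIndepOn ℚ id (rotE θ '' s.2 θ) := by
        have := (hs.ind θ).map_injOn (rotE θ).toLinearMap (rotE θ).injective.injOn
        have h2 : LinearIndepOn ℚ (id ∘ rotE θ) (s.2 θ) := this
        exact (linearIndepOn_iff_image (rotE θ).injective.injOn).1 h2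
      rw [← hgr] at h1
      exact h1
    · rw [hgr]
      have h1 : Submodule.span ℚ (s.2 θ) = ⊤ := by
        rw [Submodule.eq_top_iff']
        exact hspan θ
      have h2 := Submodule.span_image (R := ℚ) (s := s.2 θ) (rotE θ).toLinearMap
      have h3 : ((rotE θ).toLinearMap '' s.2 θ) = rotE θ '' s.2 θ := rfl
      rw [h3] at h2
      rw [h2, h1, Submodule.map_top]
      exact LinearEquiv.range _
    · rw [hgr]
      exact image_mono (hs.sub θ)

end Pool.Agent.Results.MP_04172d_lc.HamelEveryDirection
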